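import Mathlib
import Pool.Agent.R322.CPM.Core

/-!
# MP_bd8ab5_nt: being contracted proportionally modular is decidable

A numerical semigroup is given by the finite list `G` of its gaps. The property of being contracted
proportionally modular is a computable (even primitive recursive) property of `G`.
-/

set_option autoImplicit false

namespace Pool.Agent.Results.MP_bd8ab5_nt.Decidable

open Pool.Agent.R322.CPM

/-- The set `P(a, b, c, d)` of all integers `x` with `a x mod b ≤ c x - d`. -/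
def P (a b c d : ℕ) : Set ℤ := {x : ℤ | (a : ℤ) * x % (b : ℤ) ≤ c * x - d}

/-- A set `S` of natural numbers is contracted proportionally modular if, as a set of integers, it
equals `P(a, b, c, d) ∪ {0}` for some nonnegative integers `a, b, c, d` with `b ≠ 0`, `c ≠ 0`. -/
def IsContracted (S : Set ℕ) : Prop :=
  ∃ a b c d : ℕ, b ≠ 0 ∧ c ≠ 0 ∧ (fun n : ℕ => (n : ℤ)) '' S = P a b c d ∪ {0}

theorem isContracted_iff (G : List ℕ) : IsContracted {n | n ∉ G} ↔
    0 ∉ G ∧ ∃ a b c d : ℕ, b ≠ 0 ∧ c ≠ 0 ∧ ∀ x : ℕ, 1 ≤ x → (x ∉ G ↔ a * x % b + d ≤ c * x) := by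
  have key : ∀ a b c d x : ℕ, ((x : ℤ) ∈ P a b c d ↔ a * x % b + d ≤ c * x) := by
    intro a b c d x
    show (a : ℤ) * x % (b : ℤ) ≤ c * x - d ↔ _
    constructor
    · intro h
      have : ((a * x % b + d : ℕ) : ℤ) ≤ ((c * x : ℕ) : ℤ) := by push_cast; linarith
      exact_mod_cast this
    · intro h
      have : ((a * x % b + d : ℕ) : ℤ) ≤ ((c * x : ℕ) : ℤ) := by exact_mod_cast h
      push_cast at this; linarith
  constructor
  · rintro ⟨a, b, c, d, hb, hc, h⟩
    have h0 : 0 ∉ G := by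
      have : (0:ℤ) ∈ P a b c d ∪ {0} := Or.inr rfl
      rw [← h] at this
      obtain ⟨n, hn, hn0⟩ := this
      have : n = 0 := Int.natCast_inj.1 hn0
      subst this; exact hn
    refine ⟨h0, a, b, c, d, hb, hc, fun x hx => ?_⟩
    rw [← key]
    constructor
    · intro hxG
      have : (x : ℤ) ∈ P a b c d ∪ {0} := by rw [← h]; exact ⟨x, hxG, rfl⟩
      rcases this with h1 | h1
      · exact h1
      · exfalso
        have : (x : ℤ) = 0 := h1
        omega
    · intro hxP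
      have : (x : ℤ) ∈ P a b c d ∪ {0} := Or.inl hxP
      rw [← h] at this
      obtain ⟨n, hn, hn0⟩ := this
      have : n = x := Int.natCast_inj.1 hn0
      subst this; exact hn
  · rintro ⟨h0, a, b, c, d, hb, hc, h⟩
    refine ⟨a, b, c, d, hb, hc, ?_⟩
    ext z
    constructor
    · rintro ⟨n, hn, rfl⟩
      rcases Nat.eq_zero_or_pos n with h1 | h1
      · subst h1; exact Or.inr rfl
      · exact Or.inl ((key a b c d n).2 ((h n h1).1 hn))
    · rintro (hz | hz)
      · have hz0 : 0 ≤ z := by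
          by_contra hneg
          push Not at hneg
          have h1 : (0:ℤ) ≤ (a : ℤ) * z % (b : ℤ) := Int.emod_nonneg _ (by exact_mod_cast hb)
          have h2 : (c : ℤ) * z < 0 := mul_neg_of_pos_of_neg (by positivity) hneg
          have h3 : (a : ℤ) * z % (b : ℤ) ≤ c * z - d := hz
          have h4 : (0:ℤ) ≤ d := by positivity
          linarith
        obtain ⟨n, rfl⟩ := Int.eq_ofNat_of_zero_le hz0
        refine ⟨n, ?_, rfl⟩
        rcases Nat.eq_zero_or_pos n with h1 | h1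
        · subst h1; exact h0
        · exact (h n h1).2 ((key a b c d n).1 hz)
      · exact ⟨0, h0, by simpa using hz.symm⟩

/-- the search bound for the sum `F` of the gaps -/
def bound (G : List ℕ) : ℕ := bd (2 * G.sum + 1)

theorem bounded_search (G : List ℕ) : IsContracted {n | n ∉ G} ↔
    0 ∉ G ∧ ∃ a ∈ List.range (bound G + 1), ∃ b ∈ List.range (bound G + 1),
      ∃ c ∈ List.range (bound G + 1), ∃ d ∈ List.range (bound G + 1),
      (b ≠ 0 ∧ c ≠ 0) ∧ ∀ x ∈ List.range (2 * G.sum + 2),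
        x = 0 ∨ (x ∉ G ↔ a * x % b + d ≤ c * x) := by
  rw [isContracted_iff]
  have hGle : ∀ x, G.sum < x → x ∉ G := by
    intro x hx hxG
    have := List.le_sum_of_mem hxG
    omega
  have hbd1 : 1 ≤ bound G := by
    unfold bound bd
    have := Nat.factorial_pos (2 * G.sum + 1)
    have h2 : 0 < (2 * G.sum + 1 + 2) ^ 2 := by positivity
    have : 0 < 8 * (2 * G.sum + 1).factorial * (2 * G.sum + 1 + 2) ^ 2 := by positivity
    omega
  constructor
  · rintro ⟨h0, a, b, c, d, hb, hc, h⟩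
    refine ⟨h0, ?_⟩
    by_cases hG : ∃ t ∈ G, 1 ≤ t
    · obtain ⟨t, htG, ht1⟩ := hG
      have htF : t ≤ G.sum := List.le_sum_of_mem htG
      obtain ⟨a', b', c', d', ha', hb', hc', hd', hb0, hc0, h'⟩ :=
        core' (fun x => x ∉ G) G.sum (by omega) hGle t ht1 htF (by simpa using htG) (a % b) b c d
          (Nat.mod_lt _ (Nat.pos_of_ne_zero hb)) (by
            intro x hx
            rw [h x hx, Nat.mod_mul_mod])
      refine ⟨a', List.mem_range.2 (Nat.lt_succ_of_le ha'), b', List.mem_range.2 (Nat.lt_succ_of_le hb'),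
        c', List.mem_range.2 (Nat.lt_succ_of_le hc'), d', List.mem_range.2 (Nat.lt_succ_of_le hd'),
        ⟨by omega, by omega⟩, ?_⟩
      intro x hx
      rw [List.mem_range] at hx
      rcases Nat.eq_zero_or_pos x with hx0 | hx0
      · exact Or.inl hx0
      · exact Or.inr (h' x hx0 (by omega))
    · push Not at hG
      refine ⟨0, List.mem_range.2 (by omega), 1, List.mem_range.2 (by omega), 1,
        List.mem_range.2 (by omega), 0, List.mem_range.2 (by omega), ⟨by omega, by omega⟩, ?_⟩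
      intro x hx
      rcases Nat.eq_zero_or_pos x with hx0 | hx0
      · exact Or.inl hx0
      · refine Or.inr ⟨fun _ => by simp, fun _ hxG => ?_⟩
        have := hG x hxG
        omega
  · rintro ⟨h0, a, -, b, -, c, -, d, -, ⟨hb, hc⟩, h⟩
    refine ⟨h0, a, b, c, d, hb, hc, ?_⟩
    have h' : ∀ x, 1 ≤ x → x ≤ 2 * G.sum + 1 → (x ∉ G ↔ a * x % b + d ≤ c * x) := by
      intro x hx hx2
      rcases h x (List.mem_range.2 (by omega)) with h1 | h1
      · omega
      · exact h1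
    intro x
    induction x using Nat.strong_induction_on with
    | _ x ih =>
      intro hx
      by_cases hx2 : x ≤ 2 * G.sum + 1
      · exact h' x hx hx2
      · have hxG : x ∉ G := hGle x (by omega)
        have h1 := (h' (G.sum + 1) (by omega) (by omega)).1 (hGle _ (by omega))
        have h2 := (ih (x - (G.sum + 1)) (by omega) (by omega)).1 (hGle _ (by omega))
        obtain ⟨y, hy⟩ : ∃ y, x = (G.sum + 1) + y := ⟨x - (G.sum + 1), by omega⟩
        have hy' : x - (G.sum + 1) = y := by omega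
        rw [hy'] at h2
        have h3 : a * x % b + d ≤ c * x := by
          rw [hy]
          have h4 : a * (G.sum + 1 + y) % b ≤ a * (G.sum + 1) % b + a * y % b := by
            rw [mul_add, Nat.add_mod]
            exact Nat.mod_le _ _
          have h5 : c * (G.sum + 1 + y) = c * (G.sum + 1) + c * y := by ring
          omega
        exact ⟨fun _ => h3, fun _ => hxG⟩

open Primrec

theorem primrec_factorial : Primrec Nat.factorial := by
  have h : Primrec (Nat.rec 1 (fun n ih => (n + 1) * ih) : ℕ → ℕ) :=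
    Primrec.nat_rec₁ 1 (Primrec.nat_mul.comp₂ (Primrec.succ.comp₂ Primrec₂.left) Primrec₂.right)
  refine h.of_eq (fun n => ?_)
  induction n with
  | zero => rfl
  | succ n ih => rw [Nat.factorial_succ, ← ih]

theorem primrec_sum : Primrec (fun G : List ℕ => G.sum) := by
  have h : Primrec (fun G : List ℕ => G.foldr (fun b s => b + s) 0) :=
    Primrec.list_foldr (f := fun G : List ℕ => G) (g := fun _ => 0)
      (h := fun _ p => p.1 + p.2) Primrec.id (Primrec.const 0)
      ((Primrec.nat_add.comp (Primrec.fst.comp Primrec.snd) (Primrec.snd.comp Primrec.snd)).to₂)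
  exact h.of_eq (fun G => by rw [List.sum_eq_foldr])

theorem primrec_X : Primrec (fun G : List ℕ => 2 * G.sum + 1) :=
  Primrec.succ.comp (Primrec.nat_mul.comp (Primrec.const 2) primrec_sum)

theorem primrec_X2 : Primrec (fun G : List ℕ => 2 * G.sum + 2) :=
  Primrec.nat_add.comp (Primrec.nat_mul.comp (Primrec.const 2) primrec_sum) (Primrec.const 2)

theorem primrec_bound : Primrec (fun G : List ℕ => bound G + 1) := by
  have h1 : Primrec (fun G : List ℕ => (2 * G.sum + 1).factorial) := primrec_factorial.comp primrec_X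
  have h2 : Primrec (fun G : List ℕ => (2 * G.sum + 1) + 2) :=
    Primrec.nat_add.comp primrec_X (Primrec.const 2)
  have h3 : Primrec (fun G : List ℕ => 8 * (2 * G.sum + 1).factorial *
      (((2 * G.sum + 1) + 2) * ((2 * G.sum + 1) + 2))) :=
    Primrec.nat_mul.comp (Primrec.nat_mul.comp (Primrec.const 8) h1) (Primrec.nat_mul.comp h2 h2)
  refine (Primrec.succ.comp h3).of_eq (fun G => ?_)
  unfold bound bd
  rw [pow_two]

theorem primrec_mem : PrimrecRel (fun (x : ℕ) (G : List ℕ) => x ∈ G) := by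
  have h : PrimrecRel (fun (L : List ℕ) (b : ℕ) => ∃ a ∈ L, a = b) :=
    PrimrecRel.exists_mem_list (R := fun a b => a = b) Primrec.eq
  have h2 : PrimrecRel (fun (x : ℕ) (G : List ℕ) => ∃ a ∈ G, a = x) :=
    h.comp Primrec.snd Primrec.fst
  exact h2.of_eq (fun x G => by simp)

theorem gen_iff (A B C : Prop) : (A ∨ ((B ∧ C) ∨ (¬B ∧ ¬C))) ↔ (A ∨ (B ↔ C)) := by
  by_cases hA : A <;> by_cases hB : B <;> by_cases hC : C <;> simp [hA, hB, hC]

theorem primrec_main : PrimrecPred (fun G : List ℕ => IsContracted {n | n ∉ G}) := by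
  -- the innermost relation
  have hT : PrimrecRel (fun (x : ℕ) (y : (((List ℕ × ℕ) × ℕ) × ℕ) × ℕ) =>
      x = 0 ∨ (x ∉ y.1.1.1.1 ↔ y.1.1.1.2 * x % y.1.1.2 + y.2 ≤ y.1.2 * x)) := by
    have fx : Primrec (fun p : ℕ × ((((List ℕ × ℕ) × ℕ) × ℕ) × ℕ) => p.1) := Primrec.fst
    have fG : Primrec (fun p : ℕ × ((((List ℕ × ℕ) × ℕ) × ℕ) × ℕ) => p.2.1.1.1.1) :=
      Primrec.fst.comp (Primrec.fst.comp (Primrec.fst.comp (Primrec.fst.comp Primrec.snd)))
    have fa : Primrec (fun p : ℕ × ((((List ℕ × ℕ) × ℕ) × ℕ) × ℕ) => p.2.1.1.1.2) :=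
      Primrec.snd.comp (Primrec.fst.comp (Primrec.fst.comp (Primrec.fst.comp Primrec.snd)))
    have fb : Primrec (fun p : ℕ × ((((List ℕ × ℕ) × ℕ) × ℕ) × ℕ) => p.2.1.1.2) :=
      Primrec.snd.comp (Primrec.fst.comp (Primrec.fst.comp Primrec.snd))
    have fc : Primrec (fun p : ℕ × ((((List ℕ × ℕ) × ℕ) × ℕ) × ℕ) => p.2.1.2) :=
      Primrec.snd.comp (Primrec.fst.comp Primrec.snd)
    have fd : Primrec (fun p : ℕ × ((((List ℕ × ℕ) × ℕ) × ℕ) × ℕ) => p.2.2) :=
      Primrec.snd.comp Primrec.snd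
    have h0 : PrimrecPred (fun p : ℕ × ((((List ℕ × ℕ) × ℕ) × ℕ) × ℕ) => p.1 = 0) :=
      Primrec.eq.comp fx (Primrec.const 0)
    have h1 : PrimrecPred (fun p : ℕ × ((((List ℕ × ℕ) × ℕ) × ℕ) × ℕ) => p.1 ∉ p.2.1.1.1.1) :=
      (primrec_mem.comp fx fG).not
    have h2 : PrimrecPred (fun p : ℕ × ((((List ℕ × ℕ) × ℕ) × ℕ) × ℕ) =>
        p.2.1.1.1.2 * p.1 % p.2.1.1.2 + p.2.2 ≤ p.2.1.2 * p.1) :=
      Primrec.nat_le.comp (Primrec.nat_add.comp (Primrec.nat_mod.comp
        (Primrec.nat_mul.comp fa fx) fb) fd) (Primrec.nat_mul.comp fc fx)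
    have h3 := h0.or ((h1.and h2).or (h1.not.and h2.not))
    exact PrimrecPred.of_eq h3 (fun p => gen_iff _ _ _)
  have hall : PrimrecPred (fun y : (((List ℕ × ℕ) × ℕ) × ℕ) × ℕ =>
      ∀ x ∈ List.range (2 * y.1.1.1.1.sum + 2),
      x = 0 ∨ (x ∉ y.1.1.1.1 ↔ y.1.1.1.2 * x % y.1.1.2 + y.2 ≤ y.1.2 * x)) := by
    have gG : Primrec (fun y : (((List ℕ × ℕ) × ℕ) × ℕ) × ℕ => y.1.1.1.1) :=
      Primrec.fst.comp (Primrec.fst.comp (Primrec.fst.comp Primrec.fst))
    have hr : Primrec (fun y : (((List ℕ × ℕ) × ℕ) × ℕ) × ℕ => List.range (2 * y.1.1.1.1.sum + 2)) :=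
      Primrec.list_range.comp (primrec_X2.comp gG)
    have h1 := hT.forall_mem_list
    exact PrimrecRel.comp h1 hr Primrec.id
  have hin : PrimrecPred (fun y : (((List ℕ × ℕ) × ℕ) × ℕ) × ℕ =>
      (y.1.1.2 ≠ 0 ∧ y.1.2 ≠ 0) ∧ ∀ x ∈ List.range (2 * y.1.1.1.1.sum + 2),
      x = 0 ∨ (x ∉ y.1.1.1.1 ↔ y.1.1.1.2 * x % y.1.1.2 + y.2 ≤ y.1.2 * x)) := by
    have gb : Primrec (fun y : (((List ℕ × ℕ) × ℕ) × ℕ) × ℕ => y.1.1.2) :=
      Primrec.snd.comp (Primrec.fst.comp Primrec.fst)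
    have gc : Primrec (fun y : (((List ℕ × ℕ) × ℕ) × ℕ) × ℕ => y.1.2) :=
      Primrec.snd.comp Primrec.fst
    exact ((Primrec.eq.comp gb (Primrec.const 0)).not.and
      (Primrec.eq.comp gc (Primrec.const 0)).not).and hall
  -- existential over d
  have hd : PrimrecPred (fun y : ((List ℕ × ℕ) × ℕ) × ℕ => ∃ d ∈ List.range (bound y.1.1.1 + 1),
      (y.1.2 ≠ 0 ∧ y.2 ≠ 0) ∧ ∀ x ∈ List.range (2 * y.1.1.1.sum + 2),
      x = 0 ∨ (x ∉ y.1.1.1 ↔ y.1.1.2 * x % y.1.2 + d ≤ y.2 * x)) := by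
    have h1 : PrimrecRel (fun (d : ℕ) (y : ((List ℕ × ℕ) × ℕ) × ℕ) =>
      (y.1.2 ≠ 0 ∧ y.2 ≠ 0) ∧ ∀ x ∈ List.range (2 * y.1.1.1.sum + 2),
      x = 0 ∨ (x ∉ y.1.1.1 ↔ y.1.1.2 * x % y.1.2 + d ≤ y.2 * x)) :=
      hin.comp (f := fun p : ℕ × (((List ℕ × ℕ) × ℕ) × ℕ) => (p.2, p.1))
        (Primrec.pair Primrec.snd Primrec.fst)
    have hr : Primrec (fun y : ((List ℕ × ℕ) × ℕ) × ℕ => List.range (bound y.1.1.1 + 1)) :=
      Primrec.list_range.comp (primrec_bound.comp (Primrec.fst.comp (Primrec.fst.comp Primrec.fst)))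
    exact (h1.exists_mem_list).comp hr Primrec.id
  have hc : PrimrecPred (fun y : (List ℕ × ℕ) × ℕ => ∃ c ∈ List.range (bound y.1.1 + 1),
      ∃ d ∈ List.range (bound y.1.1 + 1),
      (y.2 ≠ 0 ∧ c ≠ 0) ∧ ∀ x ∈ List.range (2 * y.1.1.sum + 2),
      x = 0 ∨ (x ∉ y.1.1 ↔ y.1.2 * x % y.2 + d ≤ c * x)) := by
    have h1 : PrimrecRel (fun (c : ℕ) (y : (List ℕ × ℕ) × ℕ) =>
      ∃ d ∈ List.range (bound y.1.1 + 1),
      (y.2 ≠ 0 ∧ c ≠ 0) ∧ ∀ x ∈ List.range (2 * y.1.1.sum + 2),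
      x = 0 ∨ (x ∉ y.1.1 ↔ y.1.2 * x % y.2 + d ≤ c * x)) :=
      hd.comp (f := fun p : ℕ × ((List ℕ × ℕ) × ℕ) => (p.2, p.1))
        (Primrec.pair Primrec.snd Primrec.fst)
    have hr : Primrec (fun y : (List ℕ × ℕ) × ℕ => List.range (bound y.1.1 + 1)) :=
      Primrec.list_range.comp (primrec_bound.comp (Primrec.fst.comp Primrec.fst))
    exact (h1.exists_mem_list).comp hr Primrec.id
  have hb : PrimrecPred (fun y : List ℕ × ℕ => ∃ b ∈ List.range (bound y.1 + 1),
      ∃ c ∈ List.range (bound y.1 + 1), ∃ d ∈ List.range (bound y.1 + 1),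
      (b ≠ 0 ∧ c ≠ 0) ∧ ∀ x ∈ List.range (2 * y.1.sum + 2),
      x = 0 ∨ (x ∉ y.1 ↔ y.2 * x % b + d ≤ c * x)) := by
    have h1 : PrimrecRel (fun (b : ℕ) (y : List ℕ × ℕ) =>
      ∃ c ∈ List.range (bound y.1 + 1), ∃ d ∈ List.range (bound y.1 + 1),
      (b ≠ 0 ∧ c ≠ 0) ∧ ∀ x ∈ List.range (2 * y.1.sum + 2),
      x = 0 ∨ (x ∉ y.1 ↔ y.2 * x % b + d ≤ c * x)) :=
      hc.comp (f := fun p : ℕ × (List ℕ × ℕ) => (p.2, p.1))
        (Primrec.pair Primrec.snd Primrec.fst)
    have hr : Primrec (fun y : List ℕ × ℕ => List.range (bound y.1 + 1)) :=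
      Primrec.list_range.comp (primrec_bound.comp Primrec.fst)
    exact (h1.exists_mem_list).comp hr Primrec.id
  have ha : PrimrecPred (fun G : List ℕ => ∃ a ∈ List.range (bound G + 1),
      ∃ b ∈ List.range (bound G + 1),
      ∃ c ∈ List.range (bound G + 1), ∃ d ∈ List.range (bound G + 1),
      (b ≠ 0 ∧ c ≠ 0) ∧ ∀ x ∈ List.range (2 * G.sum + 2),
      x = 0 ∨ (x ∉ G ↔ a * x % b + d ≤ c * x)) := by
    have h1 : PrimrecRel (fun (a : ℕ) (G : List ℕ) =>
      ∃ b ∈ List.range (bound G + 1),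
      ∃ c ∈ List.range (bound G + 1), ∃ d ∈ List.range (bound G + 1),
      (b ≠ 0 ∧ c ≠ 0) ∧ ∀ x ∈ List.range (2 * G.sum + 2),
      x = 0 ∨ (x ∉ G ↔ a * x % b + d ≤ c * x)) :=
      hb.comp (f := fun p : ℕ × List ℕ => (p.2, p.1))
        (Primrec.pair Primrec.snd Primrec.fst)
    have hr : Primrec (fun G : List ℕ => List.range (bound G + 1)) :=
      Primrec.list_range.comp primrec_bound
    exact (h1.exists_mem_list).comp hr Primrec.id
  have h0 : PrimrecPred (fun G : List ℕ => 0 ∉ G) :=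
    (primrec_mem.comp (Primrec.const 0) Primrec.id).not
  exact (h0.and ha).of_eq (fun G => (bounded_search G).symm)

/-- There is an algorithm which decides, given the finite list `G` of gaps of a numerical semigroup,
whether the semigroup is contracted proportionally modular. -/
theorem result : ComputablePred (fun G : List ℕ => IsContracted {n : ℕ | n ∉ G}) := by
  obtain ⟨h, hp⟩ := primrec_main
  exact ⟨h, hp.to_comp⟩

end Pool.Agent.Results.MP_bd8ab5_nt.Decidable
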